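import Pool.Agent.Q16.UF.Dom
import Pool.Agent.Q16.UF.Unram
set_option autoImplicit false

/-!
Beilinson's conjecture on regulators in weight `dim X + 1`, for `i = dim X`: on the fibrations
`P(z) = λ g(x) ∏_e L_e(x) ^ (w_e + 1)` over the affine space, where `P` is a Laurent polynomial in
arbitrarily many variables which is a product of polynomials with affinely independent exponents and
roots of unity as coefficients and of homogenized cyclotomic polynomials (for example, the fibres are
Calabi-Yau varieties), where the `L_e` are arbitrary different affine forms (not necessarily in general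
position) with integral coefficients whose maximal minors are zero or units, and `g ≠ 0` is an
arbitrary polynomial with integral coefficients: unramified classes in Milnor K-theory with linearly
independent regulators, one for each basis of the arrangement without broken circuits and of internal
activity zero, for all large algebraic integers `λ` of a number field.
-/

namespace Pool.Agent.Results.MP_a09a03_nt.ArrangementFibrations

open Pool.Agent.Q16.BF Pool.Agent.Q16.UF

open Pool.Agent.TH826.MK (KQ symb Unramified Torus)

open Pool.Agent.TH826.GA (cm)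

open Pool.Agent.TH577.UA (UMod Distinct Ix)

/-- The hypotheses on the Laurent polynomial `p / z ^ k` in `z_0, ..., z_s`: `p` is a product of
polynomials with affinely independent exponents and roots of unity as coefficients and of
homogenized cyclotomic polynomials in two monomials, the origin is an interior point of the Newton
polytope of `p / z ^ k`, no variable divides `p`, and the degree of `p / z ^ k` in `z_0` is `1`. -/
structure Admissible {K : Type*} [Field K] {s : ℕ} (p : MvPolynomial (Fin (s + 1)) K)
    (k : Fin (s + 1) → ℕ) : Prop where
  split : IsSplitPoly p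
  interior : Interior p k
  not_dvd : ∀ j, ¬ (MvPolynomial.X j : MvPolynomial (Fin (s + 1)) K) ∣ p
  degree : p.degreeOf 0 = k 0 + 1

/-- The symbols of the bases are unramified: for every field of fractions `L` of the coordinate ring
of the hypersurface there is an extension `f` of the inclusion to the ring of the open part, such
that for all bases `T` the image of the symbol of `T` under `f` lies in the unramified part of the
Milnor K-group of `L` (it is unramified at all discrete valuations). -/
def UnramSymb.{u, v} {K : Type u} [Field K] {s d m : ℕ} (p : MvPolynomial (Fin (s + 1)) K)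
    (k : Fin (s + 1) → ℕ) (lam : K) (g : MvPolynomial (Fin (d + 1)) K) (w : Fin (m + 1) → ℕ)
    (c : Fin (m + 1) → Fin (d + 1) → K) (a : Fin (m + 1) → K) : Prop :=
  ∀ (L : Type v) [Field L] [Algebra (GRing p k (aPhi lam g w c a)) L]
    [IsFractionRing (GRing p k (aPhi lam g w c a)) L],
    ∃ f : GOpen p k (aPhi lam g w c a) →+* L,
      (∀ b : GRing p k (aPhi lam g w c a),
        f (toG p k (aPhi lam g w c a) b) = algebraMap (GRing p k (aPhi lam g w c a)) L b) ∧
      ∀ T : Fin (d + 1) → Fin (m + 1), (cm c T).det ≠ 0 →
        KQ.map (d + 1 + s + 1) f (symb (asym p k lam g w c a T)) ∈ Unramified L (d + 1 + s + 1)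

/-- There are tori of dimension `d + 1 + s` in the complex points over `σ` of the open part, indexed
by `Ix`, such that the determinant of the regulators on the tori of the symbols of the bases in `Ix`
does not vanish. -/
def IndepReg {K : Type*} [Field K] {s d m : ℕ} (p : MvPolynomial (Fin (s + 1)) K)
    (k : Fin (s + 1) → ℕ) (σ : K →+* ℂ) (lam : K) (g : MvPolynomial (Fin (d + 1)) K)
    (w : Fin (m + 1) → ℕ) (c : Fin (m + 1) → Fin (d + 1) → K) (a : Fin (m + 1) → K) : Prop :=
  ∃ Γ : Ix c a → Torus (GOpen p k (aPhi lam g w c a)) (d + 1 + s),
    (∀ T θ (x : K), (Γ T).e θ (gcst p k (aPhi lam g w c a) x) = σ x) ∧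
    (Matrix.of fun T T' : Ix c a =>
      (Γ T).reg (symb (asym p k lam g w c a T'.1))).det ≠ 0

/-- Let `P = p / z ^ k` be a Laurent polynomial in `z_0, ..., z_s` over the number field `K` such
that `p` is a product of polynomials `∑_j ζ_j z ^ A_j` with roots of unity `ζ_j` and affinely
independent exponents `A_j` and of polynomials `z ^ (D B) Q(z ^ A / z ^ B)`, `A ≠ B`, where `Q` is a
monic divisor of degree `D` of some `X ^ r - 1`, `r ≥ 1`. Assume that the origin is an interior
point of the Newton polytope of `P`, that `p` is not divisible by a variable, and that `P` has the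
degree `1` in `z_0`. Let `σ` be a complex embedding of `K`, and let
`L_e = ∑_j c_{e,j} x_j - a_e`, `0 ≤ e ≤ m`, be affine forms in `n + 1` variables with integral
coefficients in `K`, such that all determinants `det (c_{T_i,j})` of `n + 1` of the forms are zero or
units (of the ring of algebraic integers), not all of them are zero, and no form is a multiple of
another one. Let `w_e ≥ 0` be integers and let `g ≠ 0` be a polynomial with integral coefficients.
There is a constant `C` such that for all algebraic integers `λ` of `K` with `|σ λ| ≥ C` the
coordinate ring of the affine hypersurface `p(z) = Φ(x) z ^ k`, `Φ = λ g ∏_e L_e ^ (w_e + 1)`, of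
dimension `n + 1 + s` is a domain; its open part `Φ z_0 ... z_s ≠ 0` is smooth at all complex points
over `σ`; for all `T = (T_0, ..., T_n)` with nonzero determinant the symbol
`{z_0, u_0, ..., u_n, z_1, ..., z_s}` on the open part, `u_i = κ_i L_{T_i} / L_{h_i}`, where `h_i` is
the largest index such that the determinant of `T` with `T_i` replaced by `h_i` is not zero and `κ_i`
is the quotient of this determinant and of the one of `T`, is unramified at all discrete valuations
of the function field; and there are tori `Γ_T` of dimension `n + 1 + s` in the complex points (over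
`σ`) of the open part, such that the determinant of the regulators of the symbols of the `T'` on the
tori `Γ_T` does not vanish; here `T` and `T'` run through the set `Ix` of all `T_0 < ... < T_n` with
nonzero determinant such that every `T_i` can be replaced by a later form (with nonzero determinant),
and every other form which vanishes at the vertex of `T` can replace a later form `T_i`. -/
theorem result.{u, v} (n m s : ℕ) (K : Type u) [Field K] [NumberField K] (σ : K →+* ℂ)
    (p : MvPolynomial (Fin (s + 1)) K) (k : Fin (s + 1) → ℕ) (hp : Admissible p k)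
    (c : Fin (m + 1) → Fin (n + 1) → K) (a : Fin (m + 1) → K) (hA : UMod c a)
    (hD : Distinct c a) (hR : ∃ T : Fin (n + 1) → Fin (m + 1), (cm c T).det ≠ 0)
    (w : Fin (m + 1) → ℕ) (g : MvPolynomial (Fin (n + 1)) K)
    (hg : ∀ k, IsIntegral ℤ (g.coeff k)) (hg0 : g ≠ 0) :
    ∃ C : ℝ, ∀ lam : K, IsIntegral ℤ lam → C ≤ ‖σ lam‖ →
      IsDomain (GRing p k (aPhi lam g w c a)) ∧ SmoothOpen p k (aPhi lam g w c a) σ ∧
        UnramSymb.{u, v} p k lam g w c a ∧ IndepReg p k σ lam g w c a := by
  obtain ⟨T, hT⟩ := hR
  have hφ : g * ∏ e, Pool.Agent.TH826.GA.lf c a e ^ (w e + 1) ≠ 0 :=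
    mul_ne_zero hg0 (Finset.prod_ne_zero_iff.2 fun e _ => pow_ne_zero _ (lf_ne_zero hT hD e))
  obtain ⟨c1, hc1, h⟩ := exists_tori_ua (k := k) (w := w) σ hp.degree hD hg0
  obtain ⟨c2, h2⟩ := exists_smoothOpen' p k
    (g * ∏ e, Pool.Agent.TH826.GA.lf c a e ^ (w e + 1)) σ
  obtain ⟨c3, h3⟩ := exists_gdel_ne σ (k := k) hp.degree hφ
  refine ⟨max c1 (max c2 c3), fun lam hlam hl => ?_⟩
  have hl1 : c1 ≤ ‖σ lam‖ := (le_max_left _ _).trans hl
  have hl2 : c2 ≤ ‖σ lam‖ := (le_max_left _ _).trans ((le_max_right _ _).trans hl)
  have hl3 : c3 ≤ ‖σ lam‖ := (le_max_right _ _).trans ((le_max_right _ _).trans hl)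
  have hl0 : lam ≠ 0 := by
    intro h0
    rw [h0, map_zero, norm_zero] at hl1
    linarith
  have hdom : IsDomain (GRing p k (aPhi lam g w c a)) :=
    isDomain_GRing hp.not_dvd hp.degree (aPhi_ne_C hT hD hg0 hl0)
  refine ⟨hdom, h2 lam hl2, ?_, h lam hl1⟩
  intro L _ _ _
  have hinj : Function.Injective (algebraMap (GRing p k (aPhi lam g w c a)) L) :=
    IsFractionRing.injective _ _
  have hgd : gdel p k (aPhi lam g w c a) ≠ 0 := h3 lam hl3
  have hne : algebraMap (GRing p k (aPhi lam g w c a)) L (gdel p k (aPhi lam g w c a)) ≠ 0 :=
    fun h => hgd (hinj (h.trans (map_zero _).symm))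
  exact ⟨liftG (algebraMap (GRing p k (aPhi lam g w c a)) L) hne, fun b => liftG_toG _ _ _,
    fun S hS => asym_unramified _ hp.split hp.interior hlam hg hA hS⟩

end Pool.Agent.Results.MP_a09a03_nt.ArrangementFibrations
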