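import Pool.Agent.Q282.UK.Eff

/-!
# MP_a09a03_nt: Beilinson's regulator conjecture and systems of bilinear equations
-/

set_option autoImplicit false

open CategoryTheory Limits AlgebraicGeometry Pool.Agent.Y116.UV Pool.Agent.Q282.UM
  Pool.Agent.Q282.UK

namespace Pool.Agent.Results.MP_a09a03_nt.BilinearSystems

universe v u w

/-- The functors and the maps of the conjecture, on the category `C` of effective Chow motives over
`ℚ` (covariant, with rational coefficients). For a smooth projective `X` of dimension `d - 1`:

* `mot i` takes `M(X)` to the integral part `H^{2d-1-i}(X_{/ℤ}, ℚ(d))_ℝ` of motivic cohomology;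
* `del i` takes `M(X)` to the real Deligne cohomology `H^{2d-1-i}(X_{/ℝ}, ℝ(d))`;
* `dual` takes `M(X)` to `CH^0(X)^*_ℝ`;
* `reg i` is Beilinson's regulator, and `deg` is the canonical map from `H^{2d-1}(X_{/ℝ}, ℝ(d))` to
  `CH^0(X)^*_ℝ` (the direct image to the spectrum of `ℚ` for a connected `X`). -/
structure Regulators (C : Type u) [Category.{v} C] where
  mot : ℕ → C ⥤ ModuleCat.{w} ℝ
  del : ℕ → C ⥤ ModuleCat.{w} ℝ
  dual : C ⥤ ModuleCat.{w} ℝ
  reg : ∀ i, mot i ⟶ del i
  deg : del 0 ⟶ dual

/-- The functors are additive, `deg` is surjective and vanishes on the image of the regulator (the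
product formula). -/
structure IsRegulators {C : Type u} [Category.{v} C] [Preadditive C] (R : Regulators.{v, u, w} C) :
    Prop where
  addMot : ∀ i, (R.mot i).Additive
  addDel : ∀ i, (R.del i).Additive
  addDual : R.dual.Additive
  reg_deg : R.reg 0 ≫ R.deg = 0
  epi : ∀ M : C, Epi (R.deg.app M)

/-- The sequence `0 → A → B → C → 0` is exact. -/
def IsShortExact {B : Type*} [Category B] [Abelian B] {X Y Z : B} (f : X ⟶ Y) (g : Y ⟶ Z) : Prop :=
  ∃ w : f ≫ g = 0, (ShortComplex.mk f g w).ShortExact

/-- Beilinson's conjecture for the motive `M`: the regulator `reg i` is an isomorphism for `i ≥ 1`,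
and the sequence `0 → mot 0 → del 0 → dual → 0` is exact. -/
def Beilinson {C : Type u} [Category.{v} C] (R : Regulators.{v, u, w} C) (M : C) : Prop :=
  (∀ i, 1 ≤ i → IsIso ((R.reg i).app M)) ∧ IsShortExact ((R.reg 0).app M) (R.deg.app M)

section

variable {C : Type u} [Category.{v} C] [Preadditive C] (R : Regulators.{v, u, w} C)

/-- The target of the regulator: `del i` for `i ≥ 1`, and the kernel of `deg` for `i = 0`. -/
noncomputable def target : ℕ → C ⥤ ModuleCat.{w} ℝ
  | 0 => kernel R.deg
  | i + 1 => R.del (i + 1)

/-- The kernel of a transformation of additive functors is additive. -/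
lemma kernel_additive {F G : C ⥤ ModuleCat.{w} ℝ} (hF : F.Additive) (α : F ⟶ G) :
    (kernel α).Additive where
  map_add {X Y f g} := by
    have hm : Mono ((kernel.ι α).app Y) := inferInstance
    rw [← cancel_mono ((kernel.ι α).app Y), Preadditive.add_comp, (kernel.ι α).naturality,
      (kernel.ι α).naturality, (kernel.ι α).naturality, F.map_add, Preadditive.comp_add]

lemma target_additive (hR : IsRegulators R) : ∀ i, (target R i).Additive
  | 0 => kernel_additive (hR.addDel 0) R.deg
  | i + 1 => hR.addDel (i + 1)

/-- The regulator with values in `target`. -/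
noncomputable def regTo (hR : IsRegulators R) : ∀ i, R.mot i ⟶ target R i
  | 0 => kernel.lift R.deg (R.reg 0) hR.reg_deg
  | i + 1 => R.reg (i + 1)

omit [Preadditive C] in
lemma iso_of_kernels {B : Type*} [Category B] [Abelian B] {X K Y Z : B} {f : X ⟶ Y} {g : Y ⟶ Z}
    {k : K ⟶ Y} {η : X ⟶ K} (w : k ≫ g = 0) (hS : (ShortComplex.mk k g w).Exact) (hk : Mono k)
    (hg : Epi g) (hf : η ≫ k = f) : IsShortExact f g ↔ IsIso η := by
  have hw : f ≫ g = 0 := by rw [← hf, Category.assoc, w, comp_zero]
  constructor
  · rintro ⟨w', h⟩
    have h1 : Mono f := h.mono_f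
    let l : K ⟶ X := h.exact.lift k w
    have hl : l ≫ f = k := h.exact.lift_f k w
    refine ⟨l, ?_, ?_⟩
    · rw [← cancel_mono f, Category.assoc, hl, hf, Category.id_comp]
    · rw [← cancel_mono k, Category.assoc, hf, hl, Category.id_comp]
  · intro h
    refine ⟨hw, ?_⟩
    have e : ShortComplex.mk f g hw ≅ ShortComplex.mk k g w :=
      ShortComplex.isoMk (asIso η) (Iso.refl _) (Iso.refl _)
        (by change η ≫ k = f ≫ 𝟙 _; rw [Category.comp_id, hf])
        (by change 𝟙 _ ≫ g = g ≫ 𝟙 _; rw [Category.comp_id, Category.id_comp])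
    exact ShortComplex.shortExact_of_iso e.symm
      { exact := hS, mono_f := hk, epi_g := hg }

lemma isShortExact_iff (hR : IsRegulators R) (M : C) :
    IsShortExact ((R.reg 0).app M) (R.deg.app M) ↔ IsIso ((regTo R hR 0).app M) := by
  let S : ShortComplex (C ⥤ ModuleCat.{w} ℝ) :=
    ShortComplex.mk (kernel.ι R.deg) R.deg (kernel.condition _)
  have hS : S.Exact := ShortComplex.exact_kernel _
  have hSM : (S.map ((evaluation C (ModuleCat.{w} ℝ)).obj M)).Exact := hS.map _
  have hm : Mono ((kernel.ι R.deg).app M) := inferInstance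
  have h1 : kernel.lift R.deg (R.reg 0) hR.reg_deg ≫ kernel.ι R.deg = R.reg 0 :=
    kernel.lift_ι _ _ _
  exact iso_of_kernels _ hSM hm (hR.epi M) (congrArg (fun t => NatTrans.app t M) h1)

/-- The conjecture in terms of isomorphisms. -/
lemma beilinson_iff (hR : IsRegulators R) (M : C) :
    Beilinson R M ↔ ∀ i, IsIso ((regTo R hR i).app M) := by
  constructor
  · rintro ⟨h1, h2⟩ i
    rcases i with _ | i
    · exact (isShortExact_iff R hR M).mp h2
    · exact h1 (i + 1) (by omega)
  · intro h
    refine ⟨fun i hi => ?_, (isShortExact_iff R hR M).mpr (h 0)⟩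
    rcases i with _ | i
    · omega
    · exact h (i + 1)

/-- Beilinson's conjecture for a complex: the maps induced by the regulators on the cohomology of
the complexes `mot i (K)` and `target i (K)` are isomorphisms. -/
def BeilinsonComplex [HasZeroObject C] [HasBinaryBiproducts C] (hR : IsRegulators R) (K : HK C) :
    Prop :=
  haveI := hR.addMot
  haveI := target_additive R hR
  ∀ i, CohIso (regTo R hR i) K

end

/-- **Beilinson's regulator conjecture and systems of bilinear equations.** Let `C` be the category of
effective Chow motives over `ℚ`, with the weight complexes `W(X)` of the schemes of finite type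
over `ℚ`. Beilinson's conjecture is true for all smooth projective varieties over `ℚ` if and only if
it is true for the weight complexes of the schemes `Y ⊂ 𝔸^{a+b}` given by the systems of bilinear
equations `∑_{(i, j) ∈ E_l} x_i y_j = 0`, `l = 1, …, c`, with coefficients `0` and `1`. -/
theorem result {C : Type u} [Category.{v} C] [Preadditive C] [HasZeroObject C]
    [HasBinaryBiproducts C] [HasFiniteBiproducts C] (D : Complexes ℚ C) (hD : IsCovariant D)
    (R : Regulators.{v, u, w} C) (hR : IsRegulators R) :
    ForMotives D (Beilinson R) ↔ ForBinarySystems D (BeilinsonComplex R hR) := by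
  have h1 := hR.addMot
  have h2 := target_additive R hR
  refine Iff.trans ?_ (binary_cov presents_rat hD (ext_all fun i => ext_iso (regTo R hR i)))
  exact forall_congr' fun X => forall_congr' fun _ => beilinson_iff R hR (D.M X)

end Pool.Agent.Results.MP_a09a03_nt.BilinearSystems
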