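import Pool.Agent.Q115.KR.CubAlg
import Pool.Agent.Q115.KR.Fam
set_option autoImplicit false

/-!
Beilinson's conjecture on regulators for `K_2` of curves over number fields (weight `2`, `i = 1`):
exceptional units and three archimedean places at once.

Let `ε` be a unit of a number field such that `1 + ε` is a unit too. On the curves
`(1 - y^N) (1 - x) (1 - ε x) (1 + (1 + ε) x) = 1` there are `3 (N - 1)` unramified symbols; their
regulators are independent if `ε` is large at one place, small at a second place, and near `-1` at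
a third place. For `N = 2` the curve is birational to the elliptic curve
`w² = (1 - x) (1 - ε x) (1 + (1 + ε) x) (ε (1 + ε) x - (1 + ε + ε²))`, and if the number field is
cubic, then `3` is the full number `g [K : ℚ]` of classes expected by Beilinson. All conditions hold
for the roots `ε` of `X (X + 1) (X - a) ± (X + 1) ± X` for all large integers `a` (totally real cubic
fields, among them the simplest cubic fields).
-/

namespace Pool.Agent.Results.MP_a09a03_nt.CubicFieldsFullRank

open Pool.Agent.TH826.MH (eqn)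
open Pool.Agent.TH265.V Pool.Agent.Q115.KR
open Polynomial

universe u v

/-- The quartic polynomial `Q = (1 - X) (1 - ε X) (1 + (1 + ε) X) (ε (1 + ε) X - (1 + ε + ε²))` has
degree `4` and no multiple factors, and `w = (1 - x) (1 - ε x) (1 + (1 + ε) x) y / x` satisfies
`w² = Q(x)` on the curve `(1 - y²) (1 - x) (1 - ε x) (1 + (1 + ε) x) = 1`: the function field of this
curve is that of the curve of genus one `w² = Q(x)`. -/
def EllipticModel {K : Type u} [Field K] (ε : K) : Prop :=
  Squarefree (quart ε) ∧ (quart ε).natDegree = 4 ∧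
    ∀ (F : Type v) [Field F] [Algebra K F] (x y : F), x ≠ 0 →
      (1 - y ^ 2) * ((1 - x) * (1 - algebraMap K F ε * x) *
        (1 + algebraMap K F (1 + ε) * x)) = 1 →
      ((1 - x) * (1 - algebraMap K F ε * x) * (1 + algebraMap K F (1 + ε) * x) * y / x) ^ 2 =
        aeval x (quart ε)

/-- First part: number fields `K` with a primitive `N`-th root of unity `ζ`, `N = p + 1 ≥ 2`, a unit
`ε` such that `1 + ε` is a unit, and three complex embeddings `σ 0`, `σ 1`, `σ 2` with `|σ 0 ε| ≥ c`,
`|σ 1 ε| ≤ 1 / c`, `|1 + σ 2 ε| ≤ 1 / c`. The curve `(1 - y^N) (1 - x) (1 - ε x) (1 + (1 + ε) x) = 1`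
has a coordinate ring which is a domain and it is smooth at all complex points with `x ≠ 0`; the
`3 (N - 1)` symbols `{(y - ζ^j) / (y - ζ^(j+1)), (x - α) / x}`, `0 ≤ j < N - 1`,
`α = 1, 1/ε, -1/(1+ε)`, are unramified at all discrete valuations of the function field; and there
are `3 (N - 1)` loops, `N - 1` of them over each `σ i`, such that the determinant of the regulators of
the symbols on the loops does not vanish.

Second part: all integers `a` with `|a| ≥ a₀` and all signs `δ, δ' = ± 1`. The polynomial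
`X (X + 1) (X - a) + δ (X + 1) - δ' X` is irreducible, and if `ε` is a root of it in the cubic field
`K`, then the curve `(1 - y²) (1 - x) (1 - ε x) (1 + (1 + ε) x) = 1` of genus one over `K` has the
`3 = g [K : ℚ]` unramified symbols `{(y - 1) / (y + 1), (x - α) / x}`, and there are three different
real embeddings of `K` and a loop over each of them such that the determinant of the regulators does
not vanish. -/
theorem result :
    (∀ p : ℕ, 1 ≤ p → ∃ c : ℝ, 1 < c ∧ ∀ (K : Type u) [Field K] [NumberField K]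
      (σ : Fin (2 + 1) → (K →+* ℂ)) (ζ ε : K), IsPrimitiveRoot ζ (p + 1) → IsIntegral ℤ ε →
      IsIntegral ℤ ε⁻¹ → IsIntegral ℤ (1 + ε)⁻¹ → c ≤ ‖σ 0 ε‖ → ‖σ 1 ε‖ * c ≤ 1 →
      ‖1 + σ 2 ε‖ * c ≤ 1 →
      eqn (lm (ac ε)) (rts p ζ (ac ε)) = cpoly p ε ∧ IsDomain (Crv p ζ (ac ε)) ∧
      (∀ ρ : K →+* ℂ, SmoothOff (cpoly p ε) ρ) ∧ UnramifiedSymbols.{u, v} p ζ (ac ε) ∧
      IndependentRegulators p ζ (ac ε) σ) ∧
    ∃ a₀ : ℤ, ∀ a δ δ' : ℤ, a₀ ≤ |a| → (δ = 1 ∨ δ = -1) → (δ' = 1 ∨ δ' = -1) →
      Irreducible ((cub a δ δ').map (algebraMap ℤ ℚ)) ∧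
      ∀ (K : Type u) [Field K] [NumberField K] (ε : K), Module.finrank ℚ K = 3 →
        aeval ε (cub a δ δ') = 0 →
        eqn (lm (ac ε)) (rts 1 (-1) (ac ε)) = cpoly 1 ε ∧ IsDomain (Crv 1 (-1) (ac ε)) ∧
        (∀ ρ : K →+* ℂ, SmoothOff (cpoly 1 ε) ρ) ∧ EllipticModel.{u, v} ε ∧
        UnramifiedSymbols.{u, v} 1 (-1) (ac ε) ∧
        ∃ s : Fin (2 + 1) → (K →+* ℝ), Function.Injective s ∧
          IndependentRegulators 1 (-1) (ac ε) (fun i => Complex.ofRealHom.comp (s i)) := by
  have key : ∀ p : ℕ, 1 ≤ p → ∃ c : ℝ, 4 ≤ c ∧ ∀ (K : Type u) [Field K] [NumberField K]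
      (σ : Fin (2 + 1) → (K →+* ℂ)) (ζ ε : K), IsPrimitiveRoot ζ (p + 1) → IsIntegral ℤ ε →
      IsIntegral ℤ ε⁻¹ → IsIntegral ℤ (1 + ε)⁻¹ → Pl c ε σ →
      eqn (lm (ac ε)) (rts p ζ (ac ε)) = cpoly p ε ∧ IsDomain (Crv p ζ (ac ε)) ∧
      (∀ ρ : K →+* ℂ, SmoothOff (cpoly p ε) ρ) ∧ UnramifiedSymbols.{u, v} p ζ (ac ε) ∧
      IndependentRegulators p ζ (ac ε) σ := by
    intro p hp
    obtain ⟨c, hc, h⟩ := cubic_det.{u} p
    refine ⟨c, hc, ?_⟩
    intro K _ _ σ ζ ε hζ he he' he1 hP
    have h0 := hP.ne_zero hc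
    have h1 := hP.one_add_ne_zero hc
    obtain ⟨Γ, hΓ, hd⟩ := h σ ζ ε hζ hP
    have hi : ∀ i, IsIntegral ℤ (ac ε i) := by
      intro i
      fin_cases i
      · exact isIntegral_one
      · exact he'
      · exact he1.neg
    have hi' : ∀ i, IsIntegral ℤ (ac ε i)⁻¹ := by
      intro i
      fin_cases i
      · show IsIntegral ℤ (1 : K)⁻¹
        rw [inv_one]
        exact isIntegral_one
      · show IsIntegral ℤ (ε⁻¹)⁻¹
        rwa [inv_inv]
      · show IsIntegral ℤ (-(1 + ε)⁻¹)⁻¹
        rw [inv_neg, inv_inv]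
        exact (isIntegral_one.add he).neg
    have hinj : Function.Injective (ac ε) := by
      have hS : ∀ i j : Fin (2 + 1), i ≠ j → ac ε i ≠ ac ε j := by
        have g0 := hP.large
        have b1 : ε ≠ 1 := by
          rintro rfl
          rw [map_one, norm_one] at g0
          linarith
        have b2 : ε ≠ -2 := by
          intro h
          rw [h, map_neg, norm_neg] at g0
          have : (σ 0) 2 = 2 := map_ofNat _ 2
          rw [this] at g0
          norm_num at g0
          linarith
        have b3 : 1 + 2 * ε ≠ 0 := by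
          intro h
          have h3 : 1 + 2 * σ 0 ε = 0 := by
            have := congrArg (σ 0) h
            rw [map_add, map_mul, map_one, map_zero] at this
            have h4 : (σ 0) 2 = 2 := map_ofNat _ 2
            rwa [h4] at this
          have h5 : σ 0 ε = -(1 / 2) := by linear_combination h3 / 2
          rw [h5] at g0
          norm_num at g0
          linarith
        have hq := qr_injective h0 h1 b1 b2 b3
        intro i j hij h
        have e : ∀ k : Fin (2 + 1), ac ε k = qr ε k.castSucc := by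
          intro k
          fin_cases k <;> rfl
        rw [e, e] at h
        exact hij (Fin.castSucc_injective _ (hq h))
      intro i j h
      by_contra hne
      exact hS i j hne h
    exact ⟨eqn_ac hζ h0 h1, isDomain_crv hζ (ac_ne_zero h0 h1) hinj, smooth_cpoly h0 h1,
      unramified_crv hζ (ac_ne_zero h0 h1) hi hi' (Γ (0, ⟨0, hp⟩)), Γ, hΓ, hd⟩
  refine ⟨?_, ?_⟩
  · intro p hp
    obtain ⟨c, hc, h⟩ := key p hp
    refine ⟨c, by linarith, ?_⟩
    intro K _ _ σ ζ ε hζ he he' he1 h1 h2 h3
    exact h K σ ζ ε hζ he he' he1 ⟨h1, h2, h3⟩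
  · obtain ⟨c, hc, h⟩ := key 1 le_rfl
    refine ⟨⌈4 * c + 1⌉, ?_⟩
    intro a δ δ' ha hδ hδ'
    refine ⟨cub_irreducible_rat hδ hδ', ?_⟩
    intro K _ _ ε hK hε
    have ha' : 4 * c + 1 ≤ |(a : ℝ)| := by
      have h1 : 4 * c + 1 ≤ ((|a| : ℤ) : ℝ) := (Int.le_ceil _).trans (by exact_mod_cast ha)
      rwa [Int.cast_abs] at h1
    obtain ⟨r, hr, hr0, hr1, hr2⟩ := cub_real_roots hc hδ hδ' ha'
    have hirr := cub_irreducible_rat (a := a) hδ hδ'
    have hdeg : ((cub a δ δ').map (algebraMap ℤ ℚ)).natDegree = Module.finrank ℚ K := by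
      rw [hK, (cub_monic_natDegree a δ δ').1.natDegree_map, (cub_monic_natDegree a δ δ').2]
    have hε' : aeval ε ((cub a δ δ').map (algebraMap ℤ ℚ)) = 0 := by
      rw [aeval_map_algebraMap]
      exact hε
    have hr' : ∀ i, aeval (r i) ((cub a δ δ').map (algebraMap ℤ ℚ)) = 0 := by
      intro i
      rw [aeval_map_algebraMap]
      exact hr i
    choose s hs using fun i => exists_emb hirr hdeg hε' (hr' i)
    obtain ⟨hε0, hεi⟩ := cub_unit hδ hε
    obtain ⟨hε1, hε1i⟩ := cub_unit' hδ' hε
    have hP : Pl c ε (fun i : Fin (2 + 1) => Complex.ofRealHom.comp (s i)) := by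
      refine ⟨?_, ?_, ?_⟩
      · show c ≤ ‖((s 0 ε : ℝ) : ℂ)‖
        rw [hs, Complex.norm_real, Real.norm_eq_abs]
        exact hr0
      · show ‖((s 1 ε : ℝ) : ℂ)‖ * c ≤ 1
        rw [hs, Complex.norm_real, Real.norm_eq_abs]
        exact hr1
      · show ‖1 + ((s 2 ε : ℝ) : ℂ)‖ * c ≤ 1
        rw [hs, ← Complex.ofReal_one, ← Complex.ofReal_add, Complex.norm_real, Real.norm_eq_abs]
        exact hr2
    have hm1 : IsPrimitiveRoot (-1 : K) (1 + 1) := IsPrimitiveRoot.neg_one 0 (by norm_num)
    obtain ⟨g1, g2, g3, g4, g5⟩ := h K _ (-1) ε hm1 (cub_integral hε) hεi hε1i hP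
    have hlarge : c ≤ |s 0 ε| := by rw [hs]; exact hr0
    refine ⟨g1, g2, g3, ⟨?_, ?_, ?_⟩, g4, s, ?_, g5⟩
    · refine quart_squarefree hε0 hε1 ?_ ?_ ?_
      · rintro rfl
        rw [map_one, abs_one] at hlarge
        linarith
      · intro h2
        rw [h2, map_neg, abs_neg] at hlarge
        have : (s 0) 2 = 2 := map_ofNat _ 2
        rw [this] at hlarge
        norm_num at hlarge
        linarith
      · intro h2
        have h3 : 1 + 2 * s 0 ε = 0 := by
          have := congrArg (s 0) h2
          rw [map_add, map_mul, map_one, map_zero] at this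
          have h4 : (s 0) 2 = 2 := map_ofNat _ 2
          rwa [h4] at this
        have h5 : s 0 ε = -(1 / 2) := by linarith
        rw [h5] at hlarge
        norm_num at hlarge
        linarith
    · exact quart_natDegree hε0 hε1
    · intro F _ _ x y hx hxy
      exact quart_model ε hx hxy
    · have hc0 : (0 : ℝ) < c := by linarith
      have b1 : |s 1 ε| ≤ 1 / 4 := by
        rw [hs]
        have : |r 1| * 4 ≤ |r 1| * c := mul_le_mul_of_nonneg_left hc (abs_nonneg _)
        linarith
      have b2 : |1 + s 2 ε| ≤ 1 / 4 := by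
        rw [hs]
        have : |1 + r 2| * 4 ≤ |1 + r 2| * c := mul_le_mul_of_nonneg_left hc (abs_nonneg _)
        linarith
      have b0 : 4 ≤ |s 0 ε| := hc.trans hlarge
      obtain ⟨b1a, b1b⟩ := abs_le.1 b1
      obtain ⟨b2a, b2b⟩ := abs_le.1 b2
      have n01 : s 0 ≠ s 1 := by
        intro h
        rw [h] at b0
        linarith
      have n02 : s 0 ≠ s 2 := by
        intro h
        rw [h] at b0
        rcases le_abs.1 b0 with h1 | h1 <;> linarith
      have n12 : s 1 ≠ s 2 := by
        intro h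
        rw [h] at b1a
        linarith
      intro i j hij
      fin_cases i <;> fin_cases j <;> first
        | rfl
        | exact absurd hij n01
        | exact absurd hij n02
        | exact absurd hij n12
        | exact absurd hij.symm n01
        | exact absurd hij.symm n02
        | exact absurd hij.symm n12

end Pool.Agent.Results.MP_a09a03_nt.CubicFieldsFullRank
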