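import Pool.Agent.Q115.KR.Gal
set_option autoImplicit false

/-!
Beilinson's conjecture on regulators in weight `2` for curves over `ℚ` and the Artin
representations of an arbitrary Galois number field.

For every Galois number field `K` with at least two archimedean places (and `N`-th and `m`-th roots
of unity, for instance `N = m = 2`) there are curves `C` over `ℚ`, with integral coefficients, and
integral classes in `K_2` of `C_K`, which the Galois group permutes as it permutes the archimedean
places (`m (N - 1)` times), and whose regulators over all the archimedean places are independent.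
So the integral part of `K_2 (C_K) ⊗ ℚ` contains `m (N - 1)` copies of the permutation
representation on the places (the regular representation if `K` is totally real): all the twists of
`h^1 (C)` by Artin representations of `K` are reached at once.
-/

namespace Pool.Agent.Results.MP_a09a03_nt.GaloisEquivariant

open Pool.Agent.TH826.MH (eqn)
open Pool.Agent.TH265.V Pool.Agent.Q115.KR
open NumberField Polynomial

universe u v

/-- A polynomial `f` in `y`, `x` (variables number `0`, `1`) over `K` has the integral form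
`(1 - y^(p+1)) A(x) - 1`, `A ∈ ℤ[X]`: it defines a curve over `ℚ` (and over `ℤ`). -/
def OverZ {K : Type u} [Field K] [NumberField K] (p : ℕ) (A : ℤ[X])
    (f : MvPolynomial (Fin (1 + 1)) K) : Prop :=
  f = MvPolynomial.map (algebraMap ℤ K)
    ((1 - MvPolynomial.X 0 ^ (p + 1)) *
      aeval (MvPolynomial.X 1 : MvPolynomial (Fin (1 + 1)) ℤ) A - 1)

/-- Let `N = p + 1 ≥ 2` and `m = q + 1 ≥ 1`, let `K` be a Galois number field with a primitive `N`-th
root of unity `ζ` and a primitive `m`-th root of unity `ω` (for instance `N = m = 2` and any `K`),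
and let `v_0, ..., v_t`, `t ≥ 1`, be all the archimedean places of `K`.

There is a family of units `e_v`, indexed by the archimedean places `v`, with `g (e_v) = e_(g v)` for
all `g` in the Galois group, `|e_v|_v > 1` and `|e_v|_w < 1` for `w ≠ v`.

For every such family and all large `M` there is a polynomial `A` with integral coefficients, equal
to `∏_v (1 - X^m / e_v^(m M))`, such that the curve `(1 - y^N) A(x) = 1` over `ℤ` has the following
properties over `K`: the coordinate ring over `K` is a domain; the `m (t + 1) (N - 1)` symbols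
`{(y - ζ^j) / (y - ζ^(j+1)), (x - α) / x}`, `0 ≤ j < N - 1`, `α = ω^i e_v^M`, in `K_2` of the open
part `x ≠ 0`, are unramified at all discrete valuations of the function field over `K`; there are
`m (t + 1) (N - 1)` loops in the complex points, `m (N - 1)` of them over each of the `t + 1` places,
such that the determinant of the regulators of the symbols on the loops does not vanish. -/
theorem result (p q t : ℕ) (hp : 1 ≤ p) (ht : 1 ≤ t) (K : Type u) [Field K] [NumberField K]
    [IsGalois ℚ K] (ζ ω : K) (hζ : IsPrimitiveRoot ζ (p + 1)) (hω : IsPrimitiveRoot ω (q + 1))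
    (v : Fin (t + 1) ≃ InfinitePlace K) :
    (∃ e : InfinitePlace K → (𝓞 K)ˣ, EqUnits e) ∧
    ∀ e : InfinitePlace K → (𝓞 K)ˣ, EqUnits e → ∃ M₀ : ℕ, ∀ M ≥ M₀,
      (∃ A : ℤ[X],
        A.map (algebraMap ℤ K) =
          ∏ w : InfinitePlace K, (1 - C ((((e w : K) ^ M) ^ (q + 1))⁻¹) * X ^ (q + 1)) ∧
        OverZ p A (eqn (lm (al2 (q := q) ω fun k => (e (v k) : K) ^ M))
          (rts p ζ (al2 (q := q) ω fun k => (e (v k) : K) ^ M)))) ∧
      IsDomain (Crv p ζ (al2 (q := q) ω fun k => (e (v k) : K) ^ M)) ∧
      UnramifiedSymbols.{u, v} p ζ (al2 (q := q) ω fun k => (e (v k) : K) ^ M) ∧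
      IndependentRegulators p ζ (al2 (q := q) ω fun k => (e (v k) : K) ^ M)
        (fun i => (v (blk i)).embedding) := by
  refine ⟨exists_eqUnits ht v, ?_⟩
  intro e he
  have heU : UnitsAt v fun k => e (v k) := fun k =>
    ⟨he.large (v k), fun l hl => he.small (v k) (v l) fun h => hl (v.injective h)⟩
  obtain ⟨M₀, hM₀⟩ := all_det p q t ht ζ ω hζ hω v (fun k => e (v k)) heU
  refine ⟨M₀, fun M hM => ?_⟩
  obtain ⟨hinj, hreg⟩ := hM₀ M hM
  set U : Fin (t + 1) → K := fun k => (e (v k) : K) ^ M with hU
  have hU0 : ∀ k, U k ≠ 0 := fun k => pow_ne_zero _ (Units.coe_ne_zero (e (v k)))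
  have hω0 : ω ≠ 0 := hω.ne_zero (Nat.succ_ne_zero q)
  have h0 : ∀ i, al2 (q := q) ω U i ≠ 0 := fun i => mul_ne_zero (pow_ne_zero _ hω0) (hU0 _)
  have hωi : IsIntegral ℤ ω := hω.isIntegral (Nat.succ_pos q)
  have hωi' : IsIntegral ℤ ω⁻¹ := hω.inv.isIntegral (Nat.succ_pos q)
  have hUi : ∀ k, IsIntegral ℤ (U k) := fun k => (RingOfIntegers.isIntegral_coe _).pow _
  have hUi' : ∀ k, IsIntegral ℤ (U k)⁻¹ := by
    intro k
    show IsIntegral ℤ ((e (v k) : K) ^ M)⁻¹
    rw [← inv_pow]
    exact (Pool.Agent.Q115.KR.integral_inv _).pow _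
  have hi : ∀ i, IsIntegral ℤ (al2 (q := q) ω U i) := fun i => (hωi.pow _).mul (hUi _)
  have hi' : ∀ i, IsIntegral ℤ (al2 (q := q) ω U i)⁻¹ := by
    intro i
    unfold al2
    rw [mul_inv, ← inv_pow]
    exact (hωi'.pow _).mul (hUi' _)
  refine ⟨?_, isDomain_crv hζ h0 hinj, ?_, hreg⟩
  · obtain ⟨A, hA⟩ := exists_int_poly q M he
    refine ⟨A, hA, ?_⟩
    unfold OverZ
    rw [eqn_eq hζ h0, prod_al2 hω U, apoly_eq_mv v e, ← hA]
    simp only [map_sub, map_mul, map_one, map_pow, MvPolynomial.map_X]
    congr 2
    rw [Polynomial.aeval_def, Polynomial.aeval_def, Polynomial.eval₂_map, Polynomial.hom_eval₂,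
      MvPolynomial.map_X]
    congr 1
    ext n
    simp
  · obtain ⟨Γ, -, -⟩ := hreg
    exact unramified_crv hζ h0 hi hi' (Γ (0, ⟨0, hp⟩))

end Pool.Agent.Results.MP_a09a03_nt.GaloisEquivariant
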